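import Pool.Agent.Helper19.HV.XS

/-!
# Project HV: module CA4, independence of the coordinate (change of the triple)
-/

set_option autoImplicit false

open Polynomial

namespace Pool.Agent.Helper19.HV

noncomputable section

open PL

variable {F : Type} [Field F]

section

variable {φ : F4 F} (hφ : Frm φ)

include hφ

private theorem k1 (c : F) (u a b d : V (RatFunc F)) : φ (u + lg (RatFunc.C c)) a b d = φ u a b d := by
  rw [map_add, LinearMap.add_apply, LinearMap.add_apply, LinearMap.add_apply, hφ.c0, add_zero]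

private theorem k2 (c : F) (w u a b : V (RatFunc F)) : φ w (u + lg (RatFunc.C c)) a b = φ w u a b := by
  rw [map_add, LinearMap.add_apply, LinearMap.add_apply, hφ.c1, add_zero]

private theorem k3 (c : F) (w u a b : V (RatFunc F)) : φ w a (u + lg (RatFunc.C c)) b = φ w a u b := by
  rw [hφ.s12, k2 hφ, hφ.s12]

private theorem k4 (c : F) (w u a b : V (RatFunc F)) : φ w a b (u + lg (RatFunc.C c)) = φ w a b u := by
  rw [hφ.s23, k3 hφ, hφ.s23]

private theorem pol2 (a b : V (RatFunc F)) : φ a a b b + φ b a a b = 0 := by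
  have h1 := hφ.diag (a + b)
  have h2 := hφ.diag (a - b)
  have h3 := hφ.diag a
  have h4 := hφ.diag b
  simp only [map_add, map_sub, LinearMap.add_apply, LinearMap.sub_apply] at h1 h2
  have s1 := hφ.s12 a a b b
  have s2 := hφ.s12 a b a b
  have s3 := hφ.s23 a b a b
  have s4 := hφ.s12 b a b a
  have s5 := hφ.s23 b a b a
  have s6 := hφ.s23 b b a a
  have s7 := hφ.s12 b b a a
  have s8 := hφ.s23 a a b b
  linarith

private theorem pol3 (a b c : V (RatFunc F)) : 2 * φ a a b c + φ b a a c + φ c a a b = 0 := by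
  have h1 := pol2 hφ a (b + c)
  have h2 := pol2 hφ a b
  have h3 := pol2 hφ a c
  simp only [map_add, LinearMap.add_apply] at h1
  have s1 := hφ.s23 a a b c
  linarith

end

/-- the class of `k w z⁻¹` -/
private theorem lg_kwz {c : F} (hc : c ≠ 0) {w z : RatFunc F} (hw : w ≠ 0) (hz : z ≠ 0) :
    lg (RatFunc.C c * w / z) = lg w - lg z + lg (RatFunc.C c) := by
  rw [lg_div' (mul_ne_zero (C_ne hc) hw) hz, lg_mul (C_ne hc) hw]
  abel

private theorem ey_zero {y : RatFunc F} (hy : ∀ c : F, y ≠ RatFunc.C c) {x : F} (hx1 : x ≠ 1) :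
    e (RatFunc.C (1 - x) * y / (y - RatFunc.C x)) 0 = (e y 0 - e y x) + lg (RatFunc.C (1 - x)) := by
  have h1 : y - RatFunc.C x ≠ 0 := sub_ne_zero.2 (hy x)
  have h0 : y ≠ 0 := by
    have := hy 0
    rwa [map_zero] at this
  unfold e
  rw [map_zero, sub_zero, sub_zero, lg_kwz (sub_ne_zero.2 hx1.symm) h0 h1]

private theorem ey_one {y : RatFunc F} (hy : ∀ c : F, y ≠ RatFunc.C c) {x : F} (hx0 : x ≠ 0) :
    e (RatFunc.C (1 - x) * y / (y - RatFunc.C x)) 1 = (e y 1 - e y x) + lg (RatFunc.C x) := by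
  have h1 : y - RatFunc.C x ≠ 0 := sub_ne_zero.2 (hy x)
  have h2 : y - RatFunc.C 1 ≠ 0 := sub_ne_zero.2 (hy 1)
  have h3 : RatFunc.C (1 - x) * y / (y - RatFunc.C x) - RatFunc.C 1 =
      RatFunc.C x * (-(y - RatFunc.C 1)) / (y - RatFunc.C x) := by
    rw [map_sub, map_one]
    field_simp
    ring
  unfold e
  rw [h3, lg_kwz hx0 (neg_ne_zero.2 h2) h1, lg_neg]

private theorem ey_p {y : RatFunc F} (hy : ∀ c : F, y ≠ RatFunc.C c) {x p : F} (hx0 : x ≠ 0) (hx1 : x ≠ 1)
    (hp : p ≠ x) :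
    e (RatFunc.C (1 - x) * y / (y - RatFunc.C x)) (p * (1 - x) / (p - x)) =
      (e y p - e y x) + lg (RatFunc.C ((1 - x) * x / (p - x))) := by
  have h1 : y - RatFunc.C x ≠ 0 := sub_ne_zero.2 (hy x)
  have h2 : y - RatFunc.C p ≠ 0 := sub_ne_zero.2 (hy p)
  have h4 : p - x ≠ 0 := sub_ne_zero.2 hp
  have h5 : (RatFunc.C p - RatFunc.C x : RatFunc F) ≠ 0 := by
    rw [← map_sub]
    exact C_ne h4
  have h6 : (1 - x) * x / (p - x) ≠ 0 := div_ne_zero (mul_ne_zero (sub_ne_zero.2 hx1.symm) hx0) h4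
  have h3 : RatFunc.C (1 - x) * y / (y - RatFunc.C x) - RatFunc.C (p * (1 - x) / (p - x)) =
      RatFunc.C ((1 - x) * x / (p - x)) * (-(y - RatFunc.C p)) / (y - RatFunc.C x) := by
    rw [map_div₀, map_div₀, map_mul, map_mul, map_sub, map_sub, map_one]
    field_simp
    ring
  unfold e
  rw [h3, lg_kwz h6 (neg_ne_zero.2 h2) h1, lg_neg]

private theorem ey_inf {y : RatFunc F} (hy : ∀ c : F, y ≠ RatFunc.C c) {x : F} (hx0 : x ≠ 0) (hx1 : x ≠ 1) :
    e (RatFunc.C (1 - x) * y / (y - RatFunc.C x)) (1 - x) = - e y x + lg (RatFunc.C ((1 - x) * x)) := by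
  have h1 : y - RatFunc.C x ≠ 0 := sub_ne_zero.2 (hy x)
  have h6 : (1 - x) * x ≠ 0 := mul_ne_zero (sub_ne_zero.2 hx1.symm) hx0
  have h3 : RatFunc.C (1 - x) * y / (y - RatFunc.C x) - RatFunc.C (1 - x) =
      RatFunc.C ((1 - x) * x) * 1 / (y - RatFunc.C x) := by
    rw [map_mul, map_sub, map_one]
    field_simp
    ring
  unfold e
  rw [h3, lg_kwz h6 one_ne_zero h1, lg_one]
  abel

theorem mCA4 {F : Type} [Field F] {φ : F4 F} (hφ : Frm φ) {y : RatFunc F}
    (hy : ∀ c : F, y ≠ RatFunc.C c) (h1 : Cal φ y)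
    (h2 : ∀ a b c p : F, a ≠ b → a ≠ c → b ≠ c → p ≠ c →
      Wf φ y a b c p + Wf φ y a b c (c + (a - c) * (b - c) / (p - c)) = Wf φ y a b c c)
    {x l : F} (hx0 : x ≠ 0) (hx1 : x ≠ 1) (hl0 : l ≠ 0) (hl1 : l ≠ 1) (hlx : l ≠ x) :
    N5 (Df φ y) x l =
      N5 (Df φ (RatFunc.C (1 - x) * y / (y - RatFunc.C x))) (1 - x) (l * (1 - x) / (l - x)) := by
  have a1 : l - x ≠ 0 := sub_ne_zero.2 hlx
  have a2 : l - 1 ≠ 0 := sub_ne_zero.2 hl1
  have a3 : (1 : F) - x ≠ 0 := sub_ne_zero.2 hx1.symm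
  have a4 : (1 : F) - l ≠ 0 := sub_ne_zero.2 hl1.symm
  have a5 : x - l ≠ 0 := sub_ne_zero.2 hlx.symm
  -- the expansion of the form
  have hH : ∀ u : V (RatFunc F), (∃ s, u = e y s) → φ u (e y 0 - e y x) (e y 0 - e y x) (e y 1 - e y x) =
      φ u (e y 0) (e y 0) (e y 1) + φ u (e y 0) (e y 0) (e y x) + φ u (e y 1) (e y 1) (e y x) -
        2 * φ u (e y 0) (e y 1) (e y x) := by
    rintro u ⟨s, rfl⟩
    simp only [map_sub, LinearMap.sub_apply]
    have b1 := (h1 x 0 s).1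
    have b2 := (h1 0 x s).2.1
    have b3 := (h1 1 x s).2.1
    have s1 := hφ.s23 (e y s) (e y 0) (e y x) (e y 1)
    have s2 := hφ.s12 (e y s) (e y x) (e y 0) (e y 1)
    have s3 := hφ.s12 (e y s) (e y x) (e y 0) (e y x)
    have s4 := hφ.s23 (e y s) (e y x) (e y x) (e y 1)
    have s5 := hφ.s12 (e y s) (e y x) (e y 1) (e y x)
    linarith
  have hDp : ∀ p : F, p ≠ x → Df φ (RatFunc.C (1 - x) * y / (y - RatFunc.C x)) (p * (1 - x) / (p - x)) =
      φ (e y p) (e y 0 - e y x) (e y 0 - e y x) (e y 1 - e y x) -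
        φ (e y x) (e y 0 - e y x) (e y 0 - e y x) (e y 1 - e y x) := by
    intro p hp
    unfold Df
    rw [ey_p hy hx0 hx1 hp, ey_zero hy hx1, ey_one hy hx0, k1 hφ, k2 hφ, k3 hφ, k4 hφ, map_sub φ (e y p) (e y x)]
    rfl
  have hDi : Df φ (RatFunc.C (1 - x) * y / (y - RatFunc.C x)) (1 - x) =
      - φ (e y x) (e y 0 - e y x) (e y 0 - e y x) (e y 1 - e y x) := by
    unfold Df
    rw [ey_inf hy hx0 hx1, ey_zero hy hx1, ey_one hy hx0, k1 hφ, k2 hφ, k3 hφ, k4 hφ, map_neg φ (e y x)]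
    rfl
  -- the four points
  have p2 : (l - x) / (l - 1) ≠ x := by
    intro h
    rw [div_eq_iff a2] at h
    have : l * (1 - x) = 0 := by linear_combination h
    rcases mul_eq_zero.1 this with h | h
    · exact hl0 h
    · exact a3 h
  have p3 : x / l ≠ x := by
    intro h
    rw [div_eq_iff hl0] at h
    have : x * (1 - l) = 0 := by linear_combination h
    rcases mul_eq_zero.1 this with h | h
    · exact hx0 h
    · exact a4 h
  have p4 : x * (l - 1) / (l - x) ≠ x := by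
    intro h
    rw [div_eq_iff a1] at h
    have : x * (1 - x) = 0 := by linear_combination -h
    rcases mul_eq_zero.1 this with h | h
    · exact hx0 h
    · exact a3 h
  have q2 : (1 - x) / (l * (1 - x) / (l - x)) = (l - x) / (l - 1) * (1 - x) / ((l - x) / (l - 1) - x) := by
    have b1 : (l - x) / (l - 1) - x ≠ 0 := sub_ne_zero.2 p2
    have b2 : (l - x) / (l - 1) - x = l * (1 - x) / (l - 1) := by
      field_simp
      ring
    rw [b2]
    field_simp
  have q3 : (l * (1 - x) / (l - x) - (1 - x)) / (l * (1 - x) / (l - x) - 1) = x / l * (1 - x) / (x / l - x) := by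
    have b1 : l * (1 - x) / (l - x) - 1 = x * (1 - l) / (l - x) := by
      field_simp
      ring
    have b2 : l * (1 - x) / (l - x) - (1 - x) = x * (1 - x) / (l - x) := by
      field_simp
      ring
    have b3 : x / l - x = x * (1 - l) / l := by
      field_simp
    rw [b1, b2, b3]
    field_simp
  have q4 : (1 - x) * (l * (1 - x) / (l - x) - 1) / (l * (1 - x) / (l - x) - (1 - x)) =
      x * (l - 1) / (l - x) * (1 - x) / (x * (l - 1) / (l - x) - x) := by
    have b1 : l * (1 - x) / (l - x) - 1 = x * (1 - l) / (l - x) := by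
      field_simp
      ring
    have b2 : l * (1 - x) / (l - x) - (1 - x) = x * (1 - x) / (l - x) := by
      field_simp
      ring
    have b3 : x * (l - 1) / (l - x) - x = - (x * (1 - x) / (l - x)) := by
      field_simp
      ring
    rw [b1, b2, b3]
    field_simp
    ring
  -- the functional equations
  have w1 := h2 0 x 1 l hx0.symm zero_ne_one hx1 hl1
  have w2 := h2 0 x 1 (x / l) hx0.symm zero_ne_one hx1 (by
    intro h
    rw [div_eq_iff hl0] at h
    exact hlx (by linear_combination -h))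
  have w3 := h2 1 x 0 l hx1.symm one_ne_zero hx0 hl0
  have w4 := h2 1 x 0 ((l - x) / (l - 1)) hx1.symm one_ne_zero hx0 (div_ne_zero a1 a2)
  have r1 : (1 : F) + (0 - 1) * (x - 1) / (l - 1) = (l - x) / (l - 1) := by
    field_simp
    ring
  have r2 : (1 : F) + (0 - 1) * (x - 1) / (x / l - 1) = x * (l - 1) / (l - x) := by
    have b1 : x / l - 1 = (x - l) / l := by field_simp
    rw [b1]
    field_simp
    ring
  have r3 : (0 : F) + (1 - 0) * (x - 0) / (l - 0) = x / l := by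
    rw [zero_add, sub_zero, sub_zero, sub_zero, one_mul]
  have r4 : (0 : F) + (1 - 0) * (x - 0) / ((l - x) / (l - 1) - 0) = x * (l - 1) / (l - x) := by
    rw [zero_add, sub_zero, sub_zero, sub_zero, one_mul]
    field_simp
  rw [r1] at w1
  rw [r2] at w2
  rw [r3] at w3
  rw [r4] at w4
  unfold Wf at w1 w2 w3 w4
  have c0 := pol3 hφ (e y 0) (e y 1) (e y x)
  have c1 := pol3 hφ (e y 1) (e y 0) (e y x)
  have c2 := pol3 hφ (e y x) (e y 0) (e y 1)
  have d1 := (h1 0 1 x).2.1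
  have d2 := (h1 0 x 1).2.1
  have d3 := (h1 1 x 0).2.1
  have d4 := (h1 x 0 x).2.2
  have d5 := (h1 x 1 x).2.2
  have d6 := (h1 0 x x).2.1
  have d7 := (h1 1 x x).2.1
  have g : ∀ s t u v : F, φ (e y s) (e y t) (e y u) (e y v) = φ (e y s) (e y u) (e y t) (e y v) := fun s t u v =>
    hφ.s12 _ _ _ _
  have g' : ∀ s t u v : F, φ (e y s) (e y t) (e y u) (e y v) = φ (e y s) (e y t) (e y v) (e y u) := fun s t u v =>
    hφ.s23 _ _ _ _
  have m1 : ∀ s : F, φ (e y s) (e y 0) (e y x) (e y 1) = φ (e y s) (e y 0) (e y 1) (e y x) := fun s => g' _ _ _ _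
  have m2 : ∀ s : F, φ (e y s) (e y 1) (e y x) (e y 0) = φ (e y s) (e y 0) (e y 1) (e y x) := fun s => by
    rw [g', g]
  rw [m1, m1, m1] at w1 w2
  rw [m2, m2, m2] at w3 w4
  have t1 : φ (e y 1) (e y 1) (e y 0) (e y x) = φ (e y 1) (e y 0) (e y 1) (e y x) := g _ _ _ _
  have t2 : φ (e y x) (e y 1) (e y 1) (e y 0) = φ (e y x) (e y 0) (e y 0) (e y 1) := by rw [g', g, d1]
  have t3 : φ (e y x) (e y x) (e y 0) (e y 1) = φ (e y x) (e y 0) (e y 1) (e y x) := by rw [g, g']
  have t4 : φ (e y 0) (e y x) (e y x) (e y 1) = φ (e y 0) (e y 1) (e y 1) (e y x) := by rw [g', g, d3]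
  have t5 : φ (e y 1) (e y x) (e y x) (e y 0) = φ (e y 1) (e y 0) (e y 0) (e y x) := by rw [g', g, d2]
  have t6 : φ (e y x) (e y 0) (e y 0) (e y x) = 0 := by rw [d6, g, g', d4]
  have t7 : φ (e y x) (e y 1) (e y 1) (e y x) = 0 := by rw [d7, g, g', d5]
  rw [t1, t2] at c1
  rw [t3, t4, t5] at c2
  have hH' : ∀ s : F, φ (e y s) (e y 0 - e y x) (e y 0 - e y x) (e y 1 - e y x) =
      φ (e y s) (e y 0) (e y 0) (e y 1) + φ (e y s) (e y 0) (e y 0) (e y x) + φ (e y s) (e y 1) (e y 1) (e y x) -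
        2 * φ (e y s) (e y 0) (e y 1) (e y x) := fun s => hH _ ⟨s, rfl⟩
  unfold N5
  rw [q2, q3, q4, hDp l hlx, hDp _ p2, hDp _ p3, hDp _ p4, hDi, hH' l, hH' ((l - x) / (l - 1)), hH' (x / l),
    hH' (x * (l - 1) / (l - x)), hH' x]
  unfold Df
  linarith

end

end Pool.Agent.Helper19.HV
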